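import Mathlib

set_option autoImplicit false

open Matrix Filter Topology
open scoped Matrix

namespace Pool.Agent.TH269.TTO

variable {n : ℕ}

/-- `T` is a contraction with rank one defect `1 - T T* = k k*`, all eigenvalues of modulus `< 1`. -/
structure Model (T : Matrix (Fin n) (Fin n) ℂ) (k : Fin n → ℂ) : Prop where
  defect : 1 - T * Tᴴ = vecMulVec k (star k)
  eig : ∀ μ : ℂ, ∀ x : Fin n → ℂ, x ≠ 0 → T *ᵥ x = μ • x → ‖μ‖ < 1

section norm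
open scoped Matrix.Norms.L2Operator

theorem spectrum_lt {T : Matrix (Fin n) (Fin n) ℂ}
    (h : ∀ μ : ℂ, ∀ x : Fin n → ℂ, x ≠ 0 → T *ᵥ x = μ • x → ‖μ‖ < 1) :
    ∀ z ∈ spectrum ℂ T, ‖z‖₊ < 1 := by
  intro z hz
  rw [spectrum.mem_iff, Matrix.isUnit_iff_isUnit_det, isUnit_iff_ne_zero, not_not] at hz
  obtain ⟨x, hx, hx0⟩ := Matrix.exists_mulVec_eq_zero_iff.2 hz
  have h1 : T *ᵥ x = z • x := by
    rw [Matrix.sub_mulVec, sub_eq_zero] at hx0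
    rw [← hx0, Algebra.algebraMap_eq_smul_one, smul_mulVec, one_mulVec]
  have := h z x hx h1
  exact_mod_cast this

theorem pow_tendsto [Nonempty (Fin n)] {T : Matrix (Fin n) (Fin n) ℂ}
    (h : ∀ μ : ℂ, ∀ x : Fin n → ℂ, x ≠ 0 → T *ᵥ x = μ • x → ‖μ‖ < 1) :
    Tendsto (fun j : ℕ => ‖T ^ j‖) atTop (𝓝 0) := by
  have h1 : spectralRadius ℂ T < (1 : NNReal) := spectrum.spectralRadius_lt_of_forall_lt T (spectrum_lt h)
  obtain ⟨r, hr1, hr2⟩ := ENNReal.lt_iff_exists_nnreal_btwn.1 h1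
  have h2 := spectrum.pow_nnnorm_pow_one_div_tendsto_nhds_spectralRadius T
  have h3 : ∀ᶠ j : ℕ in atTop, (‖T ^ j‖₊ : ENNReal) ^ (1 / j : ℝ) < r := h2.eventually (gt_mem_nhds hr1)
  have hr : (r : ℝ) < 1 := by exact_mod_cast hr2
  have h4 : Tendsto (fun j : ℕ => (r : ℝ) ^ j) atTop (𝓝 0) :=
    tendsto_pow_atTop_nhds_zero_of_lt_one r.2 hr
  refine squeeze_zero' (Eventually.of_forall fun j => norm_nonneg _) ?_ h4
  filter_upwards [h3, eventually_gt_atTop 0] with j hj hj0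
  have h5 : ((‖T ^ j‖₊ : ENNReal) ^ (1 / j : ℝ)) ^ (j : ℝ) ≤ (r : ENNReal) ^ (j : ℝ) :=
    ENNReal.rpow_le_rpow hj.le (by positivity)
  rw [← ENNReal.rpow_mul, one_div, inv_mul_cancel₀ (by positivity), ENNReal.rpow_one,
    ENNReal.rpow_natCast] at h5
  have h6 : ‖T ^ j‖₊ ≤ r ^ j := by exact_mod_cast h5
  exact_mod_cast h6

theorem stein_unique [Nonempty (Fin n)] {T X : Matrix (Fin n) (Fin n) ℂ}
    (h : ∀ μ : ℂ, ∀ x : Fin n → ℂ, x ≠ 0 → T *ᵥ x = μ • x → ‖μ‖ < 1)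
    (hX : X = T * X * Tᴴ) : X = 0 := by
  have h1 : ∀ j : ℕ, X = T ^ j * X * (T ^ j)ᴴ := by
    intro j
    induction j with
    | zero => simp
    | succ j ih =>
      calc X = T ^ j * X * (T ^ j)ᴴ := ih
        _ = T ^ j * (T * X * Tᴴ) * (T ^ j)ᴴ := by rw [← hX]
        _ = T ^ (j + 1) * X * (T ^ (j + 1))ᴴ := by
          rw [pow_succ, Matrix.conjTranspose_mul]
          simp only [Matrix.mul_assoc]
  have h2 : ∀ j : ℕ, ‖X‖ ≤ ‖T ^ j‖ * ‖X‖ * ‖T ^ j‖ := by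
    intro j
    calc ‖X‖ = ‖T ^ j * X * (T ^ j)ᴴ‖ := by rw [← h1 j]
      _ ≤ ‖T ^ j * X‖ * ‖(T ^ j)ᴴ‖ := norm_mul_le _ _
      _ ≤ ‖T ^ j‖ * ‖X‖ * ‖(T ^ j)ᴴ‖ := by gcongr; exact norm_mul_le _ _
      _ = ‖T ^ j‖ * ‖X‖ * ‖T ^ j‖ := by
        rw [Matrix.l2_opNorm_conjTranspose]
  have h3 : Tendsto (fun j : ℕ => ‖T ^ j‖ * ‖X‖ * ‖T ^ j‖) atTop (𝓝 (0 * ‖X‖ * 0)) :=
    ((pow_tendsto h).mul_const _).mul (pow_tendsto h)
  have h4 : ‖X‖ ≤ 0 * ‖X‖ * 0 := ge_of_tendsto' h3 h2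
  simpa using h4

theorem fixed_zero [Nonempty (Fin n)] {T : Matrix (Fin n) (Fin n) ℂ}
    (h : ∀ μ : ℂ, ∀ x : Fin n → ℂ, x ≠ 0 → T *ᵥ x = μ • x → ‖μ‖ < 1)
    {x : Fin n → ℂ} (hx : ∀ j : ℕ, (T ^ j * (T ^ j)ᴴ) *ᵥ x = x) : x = 0 := by
  have h2 : ∀ j : ℕ, ‖WithLp.toLp 2 x‖ ≤ ‖T ^ j‖ * ‖T ^ j‖ * ‖WithLp.toLp 2 x‖ := by
    intro j
    calc ‖WithLp.toLp 2 x‖ = ‖WithLp.toLp 2 ((T ^ j * (T ^ j)ᴴ) *ᵥ x)‖ := by rw [hx j]
      _ ≤ ‖T ^ j * (T ^ j)ᴴ‖ * ‖WithLp.toLp 2 x‖ := Matrix.l2_opNorm_mulVec _ (WithLp.toLp 2 x)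
      _ ≤ ‖T ^ j‖ * ‖(T ^ j)ᴴ‖ * ‖WithLp.toLp 2 x‖ := by gcongr; exact norm_mul_le _ _
      _ = ‖T ^ j‖ * ‖T ^ j‖ * ‖WithLp.toLp 2 x‖ := by
        rw [Matrix.l2_opNorm_conjTranspose]
  have h3 : Tendsto (fun j : ℕ => ‖T ^ j‖ * ‖T ^ j‖ * ‖WithLp.toLp 2 x‖) atTop
      (𝓝 (0 * 0 * ‖WithLp.toLp 2 x‖)) :=
    ((pow_tendsto h).mul (pow_tendsto h)).mul_const _
  have h4 : ‖WithLp.toLp 2 x‖ ≤ 0 * 0 * ‖WithLp.toLp 2 x‖ := ge_of_tendsto' h3 h2
  have h5 : ‖WithLp.toLp 2 x‖ = 0 := le_antisymm (by simpa using h4) (norm_nonneg _)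
  have h6 := norm_eq_zero.1 h5
  have h7 := congrArg (WithLp.ofLp) h6
  simpa using h7

end norm

theorem Model.pow_fix {T : Matrix (Fin n) (Fin n) ℂ} {k : Fin n → ℂ} (hT : Model T k)
    {x : Fin n → ℂ} (hx : ∀ j : ℕ, star k ⬝ᵥ ((T ^ j)ᴴ *ᵥ x) = 0) :
    ∀ j : ℕ, (T ^ j * (T ^ j)ᴴ) *ᵥ x = x := by
  intro j
  induction j with
  | zero => simp
  | succ j ih =>
    have h1 : T * Tᴴ = 1 - vecMulVec k (star k) := by rw [← hT.defect]; abel
    have h2 : T ^ (j + 1) * (T ^ (j + 1))ᴴ = T ^ j * (T * Tᴴ) * (T ^ j)ᴴ := by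
      rw [pow_succ, Matrix.conjTranspose_mul]
      simp only [Matrix.mul_assoc]
    rw [h2, h1, Matrix.mul_sub, Matrix.mul_one, Matrix.sub_mul, Matrix.sub_mulVec, ih]
    have h3 : (T ^ j * vecMulVec k (star k) * (T ^ j)ᴴ) *ᵥ x = 0 := by
      rw [← Matrix.mulVec_mulVec, ← Matrix.mulVec_mulVec, Matrix.vecMulVec_mulVec, hx j]
      simp
    rw [h3, sub_zero]

theorem Model.k_ne_zero [Nonempty (Fin n)] {T : Matrix (Fin n) (Fin n) ℂ} {k : Fin n → ℂ}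
    (hT : Model T k) : k ≠ 0 := by
  intro hk
  have h1 : (1 : Fin n → ℂ) = 0 := by
    apply fixed_zero hT.eig
    apply hT.pow_fix
    intro j
    rw [hk]
    simp
  obtain ⟨i⟩ := ‹Nonempty (Fin n)›
  have := congrFun h1 i
  simp at this

/-- `k` is cyclic for `T`. -/
theorem Model.cyclic [Nonempty (Fin n)] {T : Matrix (Fin n) (Fin n) ℂ} {k : Fin n → ℂ}
    (hT : Model T k) (u : Fin n → ℂ) : ∃ p : Polynomial ℂ, u = (Polynomial.aeval T p) *ᵥ k := by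
  let Φ : Polynomial ℂ →ₗ[ℂ] (Fin n → ℂ) :=
    { toFun := fun p => (Polynomial.aeval T p) *ᵥ k
      map_add' := by intro p q; simp [Matrix.add_mulVec]
      map_smul' := by intro c p; simp [Matrix.smul_mulVec] }
  have hΦ : LinearMap.range Φ = ⊤ := by
    by_contra hne
    obtain ⟨f, hf, hle⟩ := Submodule.exists_le_ker_of_lt_top _ (lt_top_iff_ne_top.2 hne)
    apply hf
    set a : Fin n → ℂ := fun i => f (Pi.single i 1) with ha
    have hfa : ∀ y, f y = a ⬝ᵥ y := by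
      intro y
      conv_lhs => rw [← Finset.univ_sum_single y]
      rw [map_sum, dotProduct]
      apply Finset.sum_congr rfl
      intro i _
      have : Pi.single i (y i) = y i • (Pi.single i (1 : ℂ) : Fin n → ℂ) := by
        rw [← Pi.single_smul]; simp
      rw [this, map_smul, ha, smul_eq_mul, mul_comm]
    have h0 : star a = 0 := by
      apply fixed_zero hT.eig
      apply hT.pow_fix
      intro j
      have h1 : f (Φ (Polynomial.X ^ j)) = 0 := hle ⟨_, rfl⟩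
      have h2 : Φ (Polynomial.X ^ j) = (T ^ j) *ᵥ k := by
        simp [Φ]
      rw [h2, hfa] at h1
      have h3 := congrArg star h1
      rw [Matrix.dotProduct_mulVec, star_zero] at h3
      rw [← h3, ← Matrix.star_dotProduct_star, Matrix.star_vecMul]
    have h1 : a = 0 := by simpa using h0
    ext i
    simp [hfa, h1]
  have : u ∈ LinearMap.range Φ := by rw [hΦ]; trivial
  obtain ⟨p, hp⟩ := this
  exact ⟨p, hp.symm⟩

theorem polyT_vecMulVec (T : Matrix (Fin n) (Fin n) ℂ) (p : Polynomial ℂ) (k : Fin n → ℂ) :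
    Polynomial.aeval T p - T * Polynomial.aeval T p * Tᴴ =
      Polynomial.aeval T p * (1 - T * Tᴴ) := by
  have h : T * Polynomial.aeval T p = Polynomial.aeval T p * T := by
    have h1 : T = Polynomial.aeval T (Polynomial.X : Polynomial ℂ) := by simp
    nth_rewrite 1 [h1]
    nth_rewrite 4 [h1]
    rw [← map_mul, ← map_mul, mul_comm]
  rw [h, Matrix.mul_sub, Matrix.mul_one, Matrix.mul_assoc]

/-- A truncated Toeplitz operator is `p(T) + q(T)*`. -/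
theorem Model.exists_poly [Nonempty (Fin n)] {T M : Matrix (Fin n) (Fin n) ℂ} {k u v : Fin n → ℂ}
    (hT : Model T k) (hM : M - T * M * Tᴴ = vecMulVec u (star k) + vecMulVec k (star v)) :
    ∃ p q : Polynomial ℂ, M = Polynomial.aeval T p + (Polynomial.aeval T q)ᴴ := by
  obtain ⟨p, hp⟩ := hT.cyclic u
  obtain ⟨q, hq⟩ := hT.cyclic v
  refine ⟨p, q, ?_⟩
  set P := Polynomial.aeval T p with hP
  set Q := Polynomial.aeval T q with hQ
  have h1 : P - T * P * Tᴴ = vecMulVec u (star k) := by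
    rw [polyT_vecMulVec T p k, hT.defect, Matrix.mul_vecMulVec, ← hP, ← hp]
  have h2 : Q - T * Q * Tᴴ = vecMulVec v (star k) := by
    rw [polyT_vecMulVec T q k, hT.defect, Matrix.mul_vecMulVec, ← hQ, ← hq]
  have h3 : Qᴴ - T * Qᴴ * Tᴴ = vecMulVec k (star v) := by
    have := congrArg conjTranspose h2
    rw [Matrix.conjTranspose_sub, Matrix.conjTranspose_mul, Matrix.conjTranspose_mul,
      Matrix.conjTranspose_conjTranspose, Matrix.conjTranspose_vecMulVec, star_star,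
      ← Matrix.mul_assoc] at this
    exact this
  have h4 : M - (P + Qᴴ) = 0 := by
    apply stein_unique hT.eig
    have h5 : M - T * M * Tᴴ = (P - T * P * Tᴴ) + (Qᴴ - T * Qᴴ * Tᴴ) := by rw [hM, h1, h3]
    have h6 : T * (M - (P + Qᴴ)) * Tᴴ = T * M * Tᴴ - (T * P * Tᴴ + T * Qᴴ * Tᴴ) := by
      rw [Matrix.mul_sub, Matrix.sub_mul, Matrix.mul_add, Matrix.add_mul]
    rw [h6]
    have h7 : M = T * M * Tᴴ + ((P - T * P * Tᴴ) + (Qᴴ - T * Qᴴ * Tᴴ)) := by rw [← h5]; abel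
    nth_rewrite 1 [h7]
    abel
  exact sub_eq_zero.1 h4

end Pool.Agent.TH269.TTO
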