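import Mathlib
import Pool.Agent.TH269.TTOLin

set_option autoImplicit false

open Matrix Filter Topology
open scoped Matrix InnerProductSpace ComplexOrder

namespace Pool.Agent.TH269.TTO

variable {n : ℕ}

theorem dot_self_ne_zero {k : Fin n → ℂ} (hk : k ≠ 0) : star k ⬝ᵥ k ≠ 0 := by
  intro h
  exact hk (dotProduct_star_self_eq_zero.1 h)

/-- `T* = R + b k*` with `R` unitary. -/
theorem Model.exists_unitary [Nonempty (Fin n)] {T : Matrix (Fin n) (Fin n) ℂ} {k : Fin n → ℂ}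
    (hT : Model T k) : ∃ (R : Matrix (Fin n) (Fin n) ℂ) (b : Fin n → ℂ), Rᴴ * R = 1 ∧ R * Rᴴ = 1 ∧
      Tᴴ = R + vecMulVec b (star k) := by
  classical
  let V := EuclideanSpace ℂ (Fin n)
  let L0 : V →ₗ[ℂ] V := Matrix.toEuclideanLin Tᴴ
  let k' : V := WithLp.toLp 2 k
  let S : Submodule ℂ V := (ℂ ∙ k')ᗮ
  have hTT : T * Tᴴ = 1 - vecMulVec k (star k) := by rw [← hT.defect]; abel
  have hperp : ∀ x : V, x ∈ S ↔ star k ⬝ᵥ (WithLp.ofLp x) = 0 := by
    intro x
    rw [Submodule.mem_orthogonal_singleton_iff_inner_right, EuclideanSpace.inner_eq_star_dotProduct,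
      dotProduct_comm]
  have hnorm : ∀ x : S, ‖(L0.comp S.subtype) x‖ = ‖x‖ := by
    intro x
    have hx := (hperp x).1 x.2
    have h1 : ‖L0 (x : V)‖ ^ 2 = ‖(x : V)‖ ^ 2 := by
      have e1 : ∀ y : V, ((‖y‖ ^ 2 : ℝ) : ℂ) = star (WithLp.ofLp y) ⬝ᵥ (WithLp.ofLp y) := by
        intro y
        have := EuclideanSpace.inner_eq_star_dotProduct y y
        rw [inner_self_eq_norm_sq_to_K, dotProduct_comm] at this
        rw [← this]
        push_cast
        rfl
      have e2 : ((‖L0 (x : V)‖ ^ 2 : ℝ) : ℂ) = ((‖(x : V)‖ ^ 2 : ℝ) : ℂ) := by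
        rw [e1, e1]
        have e3 : WithLp.ofLp (L0 (x : V)) = Tᴴ *ᵥ (WithLp.ofLp (x : V)) := rfl
        rw [e3, Matrix.star_mulVec, Matrix.conjTranspose_conjTranspose, ← Matrix.dotProduct_mulVec,
          Matrix.mulVec_mulVec, hTT, Matrix.sub_mulVec, Matrix.one_mulVec,
          Matrix.vecMulVec_mulVec, hx]
        simp
      exact_mod_cast e2
    have h2 : ‖L0 (x : V)‖ = ‖(x : V)‖ := by
      have := (sq_eq_sq₀ (norm_nonneg _) (norm_nonneg _)).1 h1
      exact this
    exact h2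
  let L : S →ₗᵢ[ℂ] V := ⟨L0.comp S.subtype, hnorm⟩
  let R : Matrix (Fin n) (Fin n) ℂ := Matrix.toEuclideanLin.symm L.extend.toLinearMap
  have hR : ∀ x : V, WithLp.ofLp (L.extend x) = R *ᵥ (WithLp.ofLp x) := by
    intro x
    have h1 : L.extend.toLinearMap = Matrix.toEuclideanLin R := by simp [R]
    have h2 : L.extend x = L.extend.toLinearMap x := rfl
    rw [h2, h1]
    rfl
  have hRR : Rᴴ * R = 1 := by
    ext i j
    have h1 := L.extend.inner_map_map (EuclideanSpace.single i (1 : ℂ)) (EuclideanSpace.single j (1 : ℂ))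
    rw [EuclideanSpace.inner_eq_star_dotProduct, EuclideanSpace.inner_eq_star_dotProduct, hR, hR,
      dotProduct_comm, Matrix.star_mulVec, ← Matrix.dotProduct_mulVec, Matrix.mulVec_mulVec] at h1
    simp at h1
    rw [h1, Matrix.one_apply, Pi.single_apply]
  have hRR' : R * Rᴴ = 1 := mul_eq_one_comm.1 hRR
  refine ⟨R, (star k ⬝ᵥ k)⁻¹ • ((Tᴴ - R) *ᵥ k), hRR, hRR', ?_⟩
  have hk := dot_self_ne_zero hT.k_ne_zero
  have hz : ∀ y : Fin n → ℂ, star k ⬝ᵥ y = 0 → (Tᴴ - R) *ᵥ y = 0 := by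
    intro y hy
    have h1 : (WithLp.toLp 2 y : V) ∈ S := (hperp _).2 hy
    have h2 := LinearIsometry.extend_apply L ⟨_, h1⟩
    have h3 := congrArg WithLp.ofLp h2
    rw [hR] at h3
    rw [Matrix.sub_mulVec, sub_eq_zero]
    exact h3.symm
  have hmain : Tᴴ - R = vecMulVec ((star k ⬝ᵥ k)⁻¹ • ((Tᴴ - R) *ᵥ k)) (star k) := by
    apply Matrix.ext_of_mulVec_single
    intro i
    set y : Fin n → ℂ := Pi.single i 1 with hy
    have h1 := hz (y - ((star k ⬝ᵥ k)⁻¹ * (star k ⬝ᵥ y)) • k) (by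
      rw [dotProduct_sub, dotProduct_smul, smul_eq_mul]
      field_simp
      ring)
    rw [Matrix.mulVec_sub, Matrix.mulVec_smul, sub_eq_zero] at h1
    rw [h1, Matrix.vecMulVec_mulVec]
    ext j
    simp
    ring
  rw [← hmain]
  abel

theorem exists_phase (W : Matrix (Fin n) (Fin n) ℂ) :
    ∃ c : ℂ, ‖c‖ = 1 ∧ (1 + c⁻¹ • W).det ≠ 0 := by
  have h1 : (Metric.sphere (0 : ℂ) 1).Infinite := by
    apply (isPreconnected_sphere (by rw [Complex.rank_real_complex]; norm_num) 0 1).infinite_of_nontrivial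
    exact ⟨1, by simp, -1, by simp, by norm_num⟩
  have h2 : {z : ℂ | (-W).charpoly.IsRoot z}.Finite := by
    have := Polynomial.finite_setOf_isRoot (Matrix.charpoly_monic (-W)).ne_zero
    exact this
  obtain ⟨c, hc1, hc2⟩ := h1.exists_notMem_finite h2
  have hc : ‖c‖ = 1 := by simpa using hc1
  have hc0 : c ≠ 0 := by
    intro h
    rw [h, norm_zero] at hc
    norm_num at hc
  refine ⟨c, hc, fun h => hc2 ?_⟩
  rw [Set.mem_setOf_eq, Polynomial.IsRoot.def, Matrix.eval_charpoly]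
  have h3 : Matrix.scalar (Fin n) c - -W = c • (1 + c⁻¹ • W) := by
    rw [smul_add, smul_smul, mul_inv_cancel₀ hc0, one_smul, sub_neg_eq_add]
    congr 1
    ext i j
    simp [Matrix.one_apply, Matrix.diagonal_apply]
  rw [h3, Matrix.det_smul, h, mul_zero]

/-- Cayley transform. -/
theorem exists_cayley {W : Matrix (Fin n) (Fin n) ℂ} (h1 : Wᴴ * W = 1) (h2 : W * Wᴴ = 1) :
    ∃ (c : ℂ) (H : Matrix (Fin n) (Fin n) ℂ), ‖c‖ = 1 ∧ Hᴴ = H ∧ (1 - Complex.I • H).det ≠ 0 ∧
      W = c • ((2 : ℂ) • (1 - Complex.I • H)⁻¹ - 1) ∧ (Wᵀ = W → Hᵀ = H) := by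
  obtain ⟨c, hc, hdet⟩ := exists_phase W
  have hc0 : c ≠ 0 := by
    intro h
    rw [h, norm_zero] at hc
    norm_num at hc
  have hcs : star c = c⁻¹ := by
    have h3 : star c * c = 1 := by
      have := Complex.normSq_eq_conj_mul_self (z := c)
      rw [Complex.normSq_eq_norm_sq, hc] at this
      rw [Complex.star_def, ← this]
      norm_num
    exact eq_inv_of_mul_eq_one_left h3
  set V := c⁻¹ • W with hV
  have hVs : Vᴴ = c • Wᴴ := by
    rw [hV, Matrix.conjTranspose_smul, ← hcs, star_star]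
  have hVV : V * Vᴴ = 1 := by
    rw [hVs, hV, Matrix.smul_mul, Matrix.mul_smul, smul_smul, inv_mul_cancel₀ hc0, one_smul, h2]
  have hu : IsUnit (1 + V) := (Matrix.isUnit_iff_isUnit_det _).2 (isUnit_iff_ne_zero.2 hdet)
  have hd : IsUnit (1 + V).det := isUnit_iff_ne_zero.2 hdet
  set G := (1 + V)⁻¹ with hG
  have hG1 : G * (1 + V) = 1 := Matrix.nonsing_inv_mul _ hd
  have hG2 : (1 + V) * G = 1 := Matrix.mul_nonsing_inv _ hd
  have hG3 : (1 + Vᴴ) * Gᴴ = 1 := by
    have := congrArg conjTranspose hG1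
    rw [Matrix.conjTranspose_mul, Matrix.conjTranspose_add, Matrix.conjTranspose_one] at this
    exact this
  have hGs : G + Gᴴ = 1 := by
    have h3 : (1 + V) * (1 + Vᴴ) = (1 + V) + (1 + Vᴴ) := by
      rw [mul_add, add_mul, add_mul, hVV]
      simp only [one_mul, mul_one]
      abel
    calc G + Gᴴ = G * ((1 + Vᴴ) * Gᴴ) + (G * (1 + V)) * Gᴴ := by rw [hG3, hG1, mul_one, one_mul]
      _ = G * ((1 + V) + (1 + Vᴴ)) * Gᴴ := by noncomm_ring
      _ = G * ((1 + V) * (1 + Vᴴ)) * Gᴴ := by rw [h3]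
      _ = (G * (1 + V)) * ((1 + Vᴴ) * Gᴴ) := by simp only [Matrix.mul_assoc]
      _ = 1 := by rw [hG3, hG1, mul_one]
  have hGs' : Gᴴ = 1 - G := by rw [← hGs]; abel
  have hH : 1 - Complex.I • ((-Complex.I) • (1 - (2 : ℂ) • G)) = (2 : ℂ) • G := by
    rw [smul_smul]
    have : Complex.I * -Complex.I = 1 := by rw [mul_neg, Complex.I_mul_I, neg_neg]
    rw [this, one_smul]
    abel
  have hinv : ((2 : ℂ) • G)⁻¹ = (2⁻¹ : ℂ) • (1 + V) := by
    apply Matrix.inv_eq_right_inv
    rw [Matrix.smul_mul, Matrix.mul_smul, smul_smul, hG1]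
    norm_num
  refine ⟨c, (-Complex.I) • (1 - (2 : ℂ) • G), hc, ?_, ?_, ?_, ?_⟩
  · rw [Matrix.conjTranspose_smul, Matrix.conjTranspose_sub, Matrix.conjTranspose_smul, hGs',
      Matrix.conjTranspose_one]
    have e1 : star (-Complex.I) = Complex.I := by simp
    have e2 : star (2 : ℂ) = 2 := by simp
    rw [e1, e2]
    ext i j
    simp
    ring
  · rw [hH, Matrix.det_smul]
    apply mul_ne_zero
    · exact pow_ne_zero _ two_ne_zero
    · intro h
      have h3 := congrArg Matrix.det hG1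
      rw [Matrix.det_mul, h, zero_mul, Matrix.det_one] at h3
      exact zero_ne_one h3
  · rw [hH, hinv, smul_smul]
    norm_num
    rw [hV, smul_smul, mul_inv_cancel₀ hc0, one_smul]
  · intro hW
    have h3 : Vᵀ = V := by rw [hV, Matrix.transpose_smul, hW]
    have h4 : Gᵀ = G := by rw [hG, Matrix.transpose_nonsing_inv, Matrix.transpose_add, h3, Matrix.transpose_one]
    rw [Matrix.transpose_smul, Matrix.transpose_sub, Matrix.transpose_smul, h4, Matrix.transpose_one]

/-- A unitary matrix is unitarily diagonalizable. -/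
theorem exists_diag {W : Matrix (Fin n) (Fin n) ℂ} (h1 : Wᴴ * W = 1) (h2 : W * Wᴴ = 1) :
    ∃ (E : Matrix (Fin n) (Fin n) ℂ) (d : Fin n → ℂ), Eᴴ * E = 1 ∧ E * Eᴴ = 1 ∧
      (∀ i, d i * star (d i) = 1) ∧ W = E * diagonal d * Eᴴ := by
  obtain ⟨c, H, hc, hH, hdet, hW, -⟩ := exists_cayley h1 h2
  have hHh : H.IsHermitian := hH
  set E : Matrix (Fin n) (Fin n) ℂ := (hHh.eigenvectorUnitary : Matrix (Fin n) (Fin n) ℂ) with hE
  have hE1 : Eᴴ * E = 1 := by
    have := (Matrix.mem_unitaryGroup_iff').1 hHh.eigenvectorUnitary.2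
    rw [Matrix.star_eq_conjTranspose] at this
    exact this
  have hE2 : E * Eᴴ = 1 := mul_eq_one_comm.1 hE1
  set l : Fin n → ℂ := fun i => (hHh.eigenvalues i : ℂ) with hl
  have hspec : H = E * diagonal l * Eᴴ := by
    have := hHh.spectral_theorem
    rw [Unitary.conjStarAlgAut_apply] at this
    exact this
  have hl1 : ∀ i, 1 - Complex.I * l i ≠ 0 := by
    intro i h
    have := congrArg Complex.re h
    simp [hl] at this
  have h3 : 1 - Complex.I • H = E * diagonal (fun i => 1 - Complex.I * l i) * Eᴴ := by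
    have : diagonal (fun i => 1 - Complex.I * l i) = 1 - Complex.I • diagonal l := by
      ext i j
      by_cases hij : i = j
      · subst hij; simp
      · simp [hij]
    rw [this, mul_sub, sub_mul, mul_one, hE2]
    conv_lhs => rw [hspec]
    simp
  have h4 : (1 - Complex.I • H)⁻¹ = E * diagonal (fun i => (1 - Complex.I * l i)⁻¹) * Eᴴ := by
    apply Matrix.inv_eq_right_inv
    rw [h3]
    calc E * diagonal (fun i => 1 - Complex.I * l i) * Eᴴ * (E * diagonal (fun i => (1 - Complex.I * l i)⁻¹) * Eᴴ)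
        = E * diagonal (fun i => 1 - Complex.I * l i) * (Eᴴ * E) * diagonal (fun i => (1 - Complex.I * l i)⁻¹) * Eᴴ := by
          simp only [Matrix.mul_assoc]
      _ = 1 := by
          rw [hE1, Matrix.mul_one, Matrix.mul_assoc E, Matrix.diagonal_mul_diagonal]
          have : (diagonal fun i => (1 - Complex.I * l i) * (1 - Complex.I * l i)⁻¹) = 1 := by
            rw [← Matrix.diagonal_one]
            congr 1
            ext i
            exact mul_inv_cancel₀ (hl1 i)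
          rw [this, Matrix.mul_one, hE2]
  have h5 : W = E * diagonal (fun i => c * (2 * (1 - Complex.I * l i)⁻¹ - 1)) * Eᴴ := by
    rw [hW, h4]
    have : diagonal (fun i => c * (2 * (1 - Complex.I * l i)⁻¹ - 1)) =
        c • ((2 : ℂ) • diagonal (fun i => (1 - Complex.I * l i)⁻¹) - 1) := by
      ext i j
      by_cases hij : i = j
      · subst hij; simp
      · simp [hij]
    rw [this]
    rw [Matrix.mul_smul, Matrix.smul_mul, mul_sub, sub_mul, mul_one, hE2, Matrix.mul_smul, Matrix.smul_mul]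
  refine ⟨E, _, hE1, hE2, ?_, h5⟩
  intro i
  have h6 : diagonal (fun i => c * (2 * (1 - Complex.I * l i)⁻¹ - 1)) = Eᴴ * W * E := by
    rw [h5]
    calc _ = (Eᴴ * E) * diagonal (fun i => c * (2 * (1 - Complex.I * l i)⁻¹ - 1)) * (Eᴴ * E) := by
          rw [hE1, one_mul, mul_one]
      _ = _ := by simp only [Matrix.mul_assoc]
  set D := diagonal (fun i => c * (2 * (1 - Complex.I * l i)⁻¹ - 1)) with hD
  have h7 : D * Dᴴ = 1 := by
    rw [h6]
    rw [Matrix.conjTranspose_mul, Matrix.conjTranspose_mul, Matrix.conjTranspose_conjTranspose]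
    calc Eᴴ * W * E * (Eᴴ * (Wᴴ * E)) = Eᴴ * W * (E * Eᴴ) * (Wᴴ * E) := by simp only [Matrix.mul_assoc]
      _ = Eᴴ * (W * Wᴴ) * E := by rw [hE2]; simp only [Matrix.mul_assoc, Matrix.mul_one, Matrix.one_mul]
      _ = 1 := by rw [h2, mul_one, hE1]
  have h8 := congrFun (congrFun h7 i) i
  rw [hD, Matrix.diagonal_conjTranspose, Matrix.diagonal_mul_diagonal, Matrix.diagonal_apply_eq,
    Matrix.one_apply_eq] at h8
  exact h8

end Pool.Agent.TH269.TTO
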