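import Mathlib
import Pool.Agent.TH269.TTOUni

set_option autoImplicit false

open Matrix Filter Topology
open scoped Matrix

namespace Pool.Agent.TH269.TTO

variable {n : ℕ}

/-- No two orthogonal nonzero eigenvectors. -/
def NoOrth (M : Matrix (Fin n) (Fin n) ℂ) : Prop :=
  ¬ ∃ x y : Fin n → ℂ, ∃ a b : ℂ, x ≠ 0 ∧ y ≠ 0 ∧
          M *ᵥ x = a • x ∧ M *ᵥ y = b • y ∧ star x ⬝ᵥ y = 0

theorem Model.exists_W [Nonempty (Fin n)] {T : Matrix (Fin n) (Fin n) ℂ} {k : Fin n → ℂ}
    (hT : Model T k) : ∃ (W : Matrix (Fin n) (Fin n) ℂ) (g : ℂ), Wᴴ * W = 1 ∧ W * Wᴴ = 1 ∧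
      T = W + g • vecMulVec k (star (Wᴴ *ᵥ k)) := by
  obtain ⟨R, b, hR1, hR2, hR⟩ := hT.exists_unitary
  have hTR : T = Rᴴ + vecMulVec k (star b) := by
    have := congrArg conjTranspose hR
    rw [Matrix.conjTranspose_conjTranspose, Matrix.conjTranspose_add,
      Matrix.conjTranspose_vecMulVec, star_star] at this
    exact this
  have hk := dot_self_ne_zero hT.k_ne_zero
  have hTT : T * Tᴴ = 1 - vecMulVec k (star k) := by rw [← hT.defect]; abel
  have h1 : T * Tᴴ = 1 + vecMulVec (Rᴴ *ᵥ b) (star k) + vecMulVec k (star (Rᴴ *ᵥ b)) +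
      (star b ⬝ᵥ b) • vecMulVec k (star k) := by
    conv_lhs => rw [hR, hTR]
    rw [Matrix.add_mul, Matrix.mul_add, Matrix.mul_add, hR1, Matrix.mul_vecMulVec,
      Matrix.vecMulVec_mul, Matrix.vecMulVec_mul_vecMulVec]
    have e1 : star (Rᴴ *ᵥ b) = star b ᵥ* R := by
      rw [Matrix.star_mulVec, Matrix.conjTranspose_conjTranspose]
    rw [e1]
    have e2 : vecMulVec k ((star b ⬝ᵥ b) • star k) = (star b ⬝ᵥ b) • vecMulVec k (star k) := by
      rw [Matrix.vecMulVec_smul]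
    rw [e2]
    abel
  have h2 : vecMulVec (Rᴴ *ᵥ b) (star k) + vecMulVec k (star (Rᴴ *ᵥ b)) +
      (star b ⬝ᵥ b) • vecMulVec k (star k) + vecMulVec k (star k) = 0 := by
    have h3 := h1.symm.trans hTT
    have h4 : vecMulVec (Rᴴ *ᵥ b) (star k) + vecMulVec k (star (Rᴴ *ᵥ b)) +
      (star b ⬝ᵥ b) • vecMulVec k (star k) + vecMulVec k (star k) =
      (1 + vecMulVec (Rᴴ *ᵥ b) (star k) + vecMulVec k (star (Rᴴ *ᵥ b)) +
      (star b ⬝ᵥ b) • vecMulVec k (star k)) - (1 - vecMulVec k (star k)) := by abel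
    rw [h4, h3, sub_self]
  have h3 := congrArg (fun A => A *ᵥ k) h2
  simp only [Matrix.add_mulVec, Matrix.smul_mulVec, Matrix.vecMulVec_mulVec, Matrix.zero_mulVec,
    MulOpposite.smul_eq_mul_unop] at h3
  set s := star k ⬝ᵥ k with hs
  set t := star (Rᴴ *ᵥ b) ⬝ᵥ k with ht
  have h4 : Rᴴ *ᵥ b = (-(s⁻¹ * (t + (star b ⬝ᵥ b) * s + s))) • k := by
    ext i
    have h5 := congrFun h3 i
    simp at h5
    simp only [Pi.smul_apply, smul_eq_mul]
    field_simp
    linear_combination h5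
  set g' := (-(s⁻¹ * (t + (star b ⬝ᵥ b) * s + s))) with hg'
  have h5 : b = g' • (R *ᵥ k) := by
    have : R *ᵥ (Rᴴ *ᵥ b) = b := by rw [Matrix.mulVec_mulVec, hR2, Matrix.one_mulVec]
    rw [← this, h4, Matrix.mulVec_smul]
  refine ⟨Rᴴ, star g', by rw [Matrix.conjTranspose_conjTranspose]; exact hR2,
    by rw [Matrix.conjTranspose_conjTranspose]; exact hR1, ?_⟩
  rw [hTR, Matrix.conjTranspose_conjTranspose]
  congr 1
  conv_lhs => rw [h5]
  rw [star_smul, Matrix.vecMulVec_smul]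

/-- A symmetric unitary intertwiner. -/
theorem Model.exists_Gam [Nonempty (Fin n)] {T : Matrix (Fin n) (Fin n) ℂ} {k : Fin n → ℂ}
    (hT : Model T k) : ∃ Γ : Matrix (Fin n) (Fin n) ℂ, Γᴴ * Γ = 1 ∧ Γ * Γᴴ = 1 ∧
      Γ * Tᵀ = T * Γ := by
  obtain ⟨W, g, hW1, hW2, hTW⟩ := hT.exists_W
  obtain ⟨E, d, hE1, hE2, hd, hWE⟩ := exists_diag hW1 hW2
  set κ : Fin n → ℂ := Eᴴ *ᵥ k with hκ
  set th : Fin n → ℂ := fun i => if κ i = 0 then 1 else κ i * (star (d i)) * (star (κ i))⁻¹ with hth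
  have hth1 : ∀ i, th i * (d i * star (κ i)) = κ i := by
    intro i
    by_cases h : κ i = 0
    · simp [hth, h]
    · have h' : star (κ i) ≠ 0 := by simpa using h
      simp only [hth, if_neg h]
      have := hd i
      field_simp
      linear_combination this
  have hth2 : ∀ i, star (th i) * th i = 1 := by
    intro i
    by_cases h : κ i = 0
    · simp [hth, h]
    · have h' : star (κ i) ≠ 0 := by simpa using h
      simp only [hth, if_neg h, star_mul', star_star, star_inv₀]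
      have := hd i
      field_simp
      linear_combination this
  set Γ : Matrix (Fin n) (Fin n) ℂ := E * diagonal th * Eᵀ with hΓ
  have hEt : Eᵀ * Eᴴᵀ = 1 := by rw [← Matrix.transpose_mul, hE1, Matrix.transpose_one]
  have hEt' : Eᴴᵀ * Eᵀ = 1 := by rw [← Matrix.transpose_mul, hE2, Matrix.transpose_one]
  have hEtH : (Eᵀ)ᴴ = Eᴴᵀ := rfl
  have hΓs : Γᵀ = Γ := by
    rw [hΓ, Matrix.transpose_mul, Matrix.transpose_mul, Matrix.transpose_transpose,
      Matrix.diagonal_transpose, Matrix.mul_assoc]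
  have hΓ1 : Γᴴ * Γ = 1 := by
    have h1 : diagonal (star th) * diagonal th = 1 := by
      rw [Matrix.diagonal_mul_diagonal, ← Matrix.diagonal_one]
      congr 1
      ext i
      exact hth2 i
    rw [hΓ, Matrix.conjTranspose_mul, Matrix.conjTranspose_mul, Matrix.diagonal_conjTranspose, hEtH]
    calc Eᴴᵀ * (diagonal (star th) * Eᴴ) * (E * diagonal th * Eᵀ)
        = Eᴴᵀ * (diagonal (star th) * (Eᴴ * E) * diagonal th) * Eᵀ := by simp only [Matrix.mul_assoc]
      _ = 1 := by rw [hE1, Matrix.mul_one, h1, Matrix.mul_one, hEt']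
  have hΓ2 : Γ * Γᴴ = 1 := mul_eq_one_comm.1 hΓ1
  refine ⟨Γ, hΓ1, hΓ2, ?_⟩
  have hkE : k = E *ᵥ κ := by rw [hκ, Matrix.mulVec_mulVec, hE2, Matrix.one_mulVec]
  set k' := Wᴴ *ᵥ k with hk'
  have hWH : Wᴴ = E * diagonal (star d) * Eᴴ := by
    rw [hWE, Matrix.conjTranspose_mul, Matrix.conjTranspose_mul, Matrix.conjTranspose_conjTranspose,
      Matrix.diagonal_conjTranspose, Matrix.mul_assoc]
  have hk'1 : k' = E *ᵥ (fun i => star (d i) * κ i) := by
    rw [hk', hWH, ← Matrix.mulVec_mulVec, ← Matrix.mulVec_mulVec, ← hκ]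
    congr 1
    ext i
    rw [Matrix.mulVec_diagonal]
    rfl
  have hk'2 : Eᵀ *ᵥ (star k') = fun i => d i * star (κ i) := by
    rw [hk'1, Matrix.star_mulVec, ← Matrix.mulVec_transpose, Matrix.mulVec_mulVec, hEt,
      Matrix.one_mulVec]
    ext i
    simp
  have hΓk : Γ *ᵥ (star k') = k := by
    rw [hΓ, ← Matrix.mulVec_mulVec, ← Matrix.mulVec_mulVec, hk'2]
    conv_rhs => rw [hkE]
    congr 1
    ext i
    rw [Matrix.mulVec_diagonal]
    exact hth1 i
  have hΓk' : (star k') ᵥ* Γ = k := by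
    rw [← Matrix.mulVec_transpose, hΓs, hΓk]
  have hΓW : Γ * Wᵀ = W * Γ := by
    have h1 : Wᵀ = Eᴴᵀ * diagonal d * Eᵀ := by
      rw [hWE, Matrix.transpose_mul, Matrix.transpose_mul, Matrix.diagonal_transpose, Matrix.mul_assoc]
    rw [h1]
    conv_rhs => rw [hWE]
    rw [hΓ]
    calc E * diagonal th * Eᵀ * (Eᴴᵀ * diagonal d * Eᵀ)
        = E * (diagonal th * (Eᵀ * Eᴴᵀ) * diagonal d) * Eᵀ := by simp only [Matrix.mul_assoc]
      _ = E * (diagonal d * (Eᴴ * E) * diagonal th) * Eᵀ := by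
          rw [hEt, hE1, Matrix.mul_one, Matrix.mul_one, Matrix.diagonal_mul_diagonal,
            Matrix.diagonal_mul_diagonal]
          simp only [mul_comm]
      _ = _ := by simp only [Matrix.mul_assoc]
  rw [hTW, Matrix.transpose_add, Matrix.transpose_smul, Matrix.mul_add, Matrix.add_mul, hΓW,
    Matrix.mul_smul, Matrix.smul_mul, Matrix.transpose_vecMulVec, Matrix.mul_vecMulVec,
    Matrix.vecMulVec_mul, hΓk, hΓk']

theorem intertwine_poly {T Γ : Matrix (Fin n) (Fin n) ℂ} (h : Γ * Tᵀ = T * Γ) (p : Polynomial ℂ) :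
    Γ * (Polynomial.aeval T p)ᵀ = Polynomial.aeval T p * Γ := by
  induction p using Polynomial.induction_on' with
  | add p q hp hq =>
    rw [map_add, Matrix.transpose_add, Matrix.mul_add, Matrix.add_mul, hp, hq]
  | monomial m a =>
    rw [Polynomial.aeval_monomial]
    have h1 : ∀ m : ℕ, Γ * (T ^ m)ᵀ = T ^ m * Γ := by
      intro m
      induction m with
      | zero => simp
      | succ m ih =>
        rw [pow_succ, Matrix.transpose_mul, ← Matrix.mul_assoc, h, Matrix.mul_assoc, ih,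
          ← Matrix.mul_assoc]
        congr 1
        rw [← pow_succ, ← pow_succ']
    rw [← Algebra.smul_def, Matrix.transpose_smul, Matrix.mul_smul, Matrix.smul_mul, h1]

/-- An irreducible matrix (without orthogonal eigenvectors) commutes only with scalar unitaries. -/
theorem NoOrth.scalar [Nonempty (Fin n)] {M Γ : Matrix (Fin n) (Fin n) ℂ} (hM : NoOrth M)
    (hΓ1 : Γᴴ * Γ = 1) (hc : Γ * M = M * Γ) : ∃ w : ℂ, w ≠ 0 ∧ Γ = w • (1 : Matrix (Fin n) (Fin n) ℂ) := by
  classical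
  set L : Module.End ℂ (Fin n → ℂ) := Matrix.toLin' Γ with hL
  set N : Module.End ℂ (Fin n → ℂ) := Matrix.toLin' M with hN
  have hcomm : ∀ x, L (N x) = N (L x) := by
    intro x
    rw [hL, hN, Matrix.toLin'_apply, Matrix.toLin'_apply, Matrix.toLin'_apply, Matrix.toLin'_apply,
      Matrix.mulVec_mulVec, Matrix.mulVec_mulVec, hc]
  obtain ⟨w, hw⟩ := Module.End.exists_eigenvalue L
  -- eigenvector in the eigenspace
  have key : ∀ S : Submodule ℂ (Fin n → ℂ), S ≠ ⊥ → (∀ x ∈ S, N x ∈ S) →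
      ∃ x ∈ S, x ≠ 0 ∧ ∃ a : ℂ, M *ᵥ x = a • x := by
    intro S hS hinv
    have : Nontrivial S := Submodule.nontrivial_iff_ne_bot.2 hS
    obtain ⟨a, ha⟩ := Module.End.exists_eigenvalue (N.restrict hinv)
    obtain ⟨x, hx⟩ := ha.exists_hasEigenvector
    refine ⟨x, x.2, fun h => hx.2 (Subtype.ext h), a, ?_⟩
    have h1 := hx.apply_eq_smul
    have h2 := congrArg Subtype.val h1
    exact h2
  obtain ⟨x, hxS, hx0, a, hxa⟩ := key (Module.End.eigenspace L w) hw (by
    intro x hx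
    rw [Module.End.mem_eigenspace_iff] at hx ⊢
    rw [hcomm, hx, map_smul])
  rw [Module.End.mem_eigenspace_iff] at hxS
  have hGx : Γ *ᵥ x = w • x := hxS
  have hw0 : w ≠ 0 := by
    intro h
    rw [h, zero_smul] at hGx
    have := congrArg (fun y => Γᴴ *ᵥ y) hGx
    simp only [Matrix.mulVec_mulVec, hΓ1, Matrix.one_mulVec, Matrix.mulVec_zero] at this
    exact hx0 this
  have hGsx : Γᴴ *ᵥ x = w⁻¹ • x := by
    have := congrArg (fun y => w⁻¹ • (Γᴴ *ᵥ y)) hGx
    simp only [Matrix.mulVec_mulVec, hΓ1, Matrix.one_mulVec, Matrix.mulVec_smul, smul_smul,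
      inv_mul_cancel₀ hw0, one_smul] at this
    exact this.symm
  have hww : star w = w⁻¹ := by
    have h1 : star (Γ *ᵥ x) ⬝ᵥ x = star x ⬝ᵥ (Γᴴ *ᵥ x) := by
      rw [Matrix.star_mulVec, Matrix.dotProduct_mulVec]
    rw [hGx, hGsx, star_smul, smul_dotProduct, dotProduct_smul, smul_eq_mul, smul_eq_mul] at h1
    exact mul_right_cancel₀ (dot_self_ne_zero hx0) h1
  by_cases hR : LinearMap.range (L - algebraMap ℂ _ w) = ⊥
  · refine ⟨w, hw0, ?_⟩
    have h1 : L - algebraMap ℂ _ w = 0 := LinearMap.range_eq_bot.1 hR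
    have h2 : ∀ y, Γ *ᵥ y = w • y := by
      intro y
      have := LinearMap.congr_fun h1 y
      simp only [LinearMap.sub_apply, Module.algebraMap_end_apply, LinearMap.zero_apply, sub_eq_zero] at this
      exact this
    apply Matrix.ext_of_mulVec_single
    intro i
    rw [h2, Matrix.smul_mulVec, Matrix.one_mulVec]
  · exfalso
    obtain ⟨y, hyS, hy0, b, hyb⟩ := key _ hR (by
      rintro y ⟨z, rfl⟩
      refine ⟨N z, ?_⟩
      simp only [LinearMap.sub_apply, Module.algebraMap_end_apply, map_sub, map_smul, hcomm])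
    obtain ⟨z, hz⟩ := hyS
    apply hM
    refine ⟨x, y, a, b, hx0, hy0, hxa, hyb, ?_⟩
    have h1 : y = Γ *ᵥ z - w • z := by
      rw [← hz]
      rfl
    rw [h1, dotProduct_sub, dotProduct_smul, Matrix.dotProduct_mulVec]
    have h2 : star x ᵥ* Γ = w • star x := by
      have h3 := congrArg star hGsx
      rw [Matrix.star_mulVec, Matrix.conjTranspose_conjTranspose, star_smul, ← hww, star_star] at h3
      exact h3
    rw [h2, smul_dotProduct, sub_self]

/-- The main structural statement: the model operator is symmetric. -/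
theorem Model.symm [Nonempty (Fin n)] {T M : Matrix (Fin n) (Fin n) ℂ} {k u v : Fin n → ℂ}
    (hT : Model T k) (hM : M - T * M * Tᴴ = vecMulVec u (star k) + vecMulVec k (star v))
    (hMt : Mᵀ = M) (hno : NoOrth M) : Tᵀ = T := by
  obtain ⟨p, q, hpq⟩ := hT.exists_poly hM
  obtain ⟨Γ, h1, h2, h3⟩ := hT.exists_Gam
  have h4 : Γ * Mᵀ = M * Γ := by
    have h5 := intertwine_poly h3 p
    have h6 := intertwine_poly h3 q
    have h7 : Γ * ((Polynomial.aeval T q)ᴴ)ᵀ = (Polynomial.aeval T q)ᴴ * Γ := by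
      have h8 := congrArg (fun A => Γ * Aᴴ * Γ) h6
      simp only [Matrix.conjTranspose_mul] at h8
      have e1 : ((Polynomial.aeval T q)ᵀ)ᴴ = ((Polynomial.aeval T q)ᴴ)ᵀ := rfl
      rw [e1] at h8
      calc Γ * ((Polynomial.aeval T q)ᴴ)ᵀ = Γ * (((Polynomial.aeval T q)ᴴ)ᵀ * Γᴴ) * Γ := by
            rw [Matrix.mul_assoc, Matrix.mul_assoc, h1, Matrix.mul_one]
        _ = Γ * (Γᴴ * (Polynomial.aeval T q)ᴴ) * Γ := h8
        _ = _ := by rw [← Matrix.mul_assoc, h2, Matrix.one_mul]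
    rw [hpq, Matrix.transpose_add, Matrix.mul_add, Matrix.add_mul, h5, h7]
  rw [hMt] at h4
  obtain ⟨w, hw0, hw⟩ := hno.scalar h1 h4
  rw [hw, Matrix.smul_mul, Matrix.one_mul, Matrix.mul_smul, Matrix.mul_one] at h3
  exact smul_right_injective _ hw0 h3

/-- The model operator in Cayley form. -/
theorem Model.exists_param [Nonempty (Fin n)] {T : Matrix (Fin n) (Fin n) ℂ} {k : Fin n → ℂ}
    (hT : Model T k) (hTs : Tᵀ = T) : ∃ (c b : ℂ) (H : Matrix (Fin n) (Fin n) ℂ), Hᴴ = H ∧ Hᵀ = H ∧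
      (1 - Complex.I • H).det ≠ 0 ∧
      T = c • ((2 : ℂ) • (1 - Complex.I • H)⁻¹ - 1) + b • vecMulVec k k := by
  obtain ⟨W, g, hW1, hW2, hTW⟩ := hT.exists_W
  have hk := hT.k_ne_zero
  set k' := Wᴴ *ᵥ k with hk'
  -- `T* T = 1 - k' k'*`
  have hTT : T * Tᴴ = 1 - vecMulVec k (star k) := by rw [← hT.defect]; abel
  have hWk' : W *ᵥ k' = k := by rw [hk', Matrix.mulVec_mulVec, hW2, Matrix.one_mulVec]
  have hTH : Tᴴ = Wᴴ + star g • vecMulVec k' (star k) := by
    rw [hTW, Matrix.conjTranspose_add, Matrix.conjTranspose_smul, Matrix.conjTranspose_vecMulVec,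
      star_star]
  have hkW : star k ᵥ* W = star k' := by
    rw [hk', Matrix.star_mulVec, Matrix.conjTranspose_conjTranspose]
  have hkk : star k' ⬝ᵥ k' = star k ⬝ᵥ k := by
    rw [← hkW, ← Matrix.dotProduct_mulVec, hWk']
  set s := star k ⬝ᵥ k with hs
  have hs0 : s ≠ 0 := dot_self_ne_zero hk
  have h1 : T * Tᴴ = 1 + (star g + g + g * star g * s) • vecMulVec k (star k) := by
    conv_lhs => rw [hTH, hTW]
    rw [Matrix.add_mul, Matrix.mul_add, Matrix.mul_add, hW2, Matrix.mul_smul, Matrix.mul_vecMulVec,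
      hWk', Matrix.smul_mul, Matrix.vecMulVec_mul, Matrix.smul_mul, Matrix.mul_smul,
      Matrix.vecMulVec_mul_vecMulVec, hkk]
    have e1 : star k' ᵥ* Wᴴ = star k := by
      rw [← Matrix.star_mulVec, hWk']
    rw [e1, Matrix.vecMulVec_smul, add_smul, add_smul, smul_smul, smul_smul]
    abel
  have h2 : Tᴴ * T = 1 + (star g + g + g * star g * s) • vecMulVec k' (star k') := by
    conv_lhs => rw [hTH, hTW]
    rw [Matrix.add_mul, Matrix.mul_add, Matrix.mul_add, hW1, Matrix.mul_smul, Matrix.mul_vecMulVec,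
      ← hk', Matrix.smul_mul, Matrix.vecMulVec_mul, Matrix.smul_mul, Matrix.mul_smul,
      Matrix.vecMulVec_mul_vecMulVec, ← hs, hkW, Matrix.vecMulVec_smul, add_smul, add_smul, smul_smul, smul_smul,
      mul_comm (star g) g]
    abel
  obtain ⟨i0, hi0⟩ : ∃ i, k i ≠ 0 := by
    by_contra hcon
    push Not at hcon
    exact hk (funext hcon)
  have hcoef : star g + g + g * star g * s = -1 := by
    have h3 := congrFun (congrFun (h1.symm.trans hTT) i0) i0
    simp only [Matrix.add_apply, Matrix.sub_apply, Matrix.smul_apply, Matrix.vecMulVec_apply,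
      Pi.star_apply, smul_eq_mul] at h3
    have h4 : k i0 * star (k i0) ≠ 0 := mul_ne_zero hi0 (by simpa using hi0)
    apply mul_right_cancel₀ h4
    linear_combination h3
  have h3 : Tᴴ * T = 1 - vecMulVec (star k) k := by
    have h4 := congrArg transpose hTT
    rw [Matrix.transpose_mul, hTs, Matrix.transpose_sub, Matrix.transpose_one,
      Matrix.transpose_vecMulVec] at h4
    have e1 : Tᴴᵀ = Tᴴ := by
      have : Tᴴᵀ = (Tᵀ)ᴴ := rfl
      rw [this, hTs]
    rw [e1] at h4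
    exact h4
  have h4 : ∀ i j, k' i * star (k' j) = star (k i) * k j := by
    intro i j
    rw [hcoef] at h2
    have h5 := congrFun (congrFun (h2.symm.trans h3) i) j
    simp only [Matrix.add_apply, Matrix.sub_apply, Matrix.smul_apply, Matrix.vecMulVec_apply,
      Pi.star_apply, smul_eq_mul] at h5
    linear_combination -h5
  have h5 : k' i0 ≠ 0 := by
    intro h
    have h6 := h4 i0 i0
    rw [h, zero_mul] at h6
    exact mul_ne_zero (by simpa using hi0) hi0 h6.symm
  have h5' : star (k' i0) ≠ 0 := by simpa using h5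
  set θ : ℂ := k i0 / star (k' i0) with hθ
  have h6 : k' = θ • star k := by
    ext i
    rw [Pi.smul_apply, smul_eq_mul, hθ, Pi.star_apply]
    have := h4 i i0
    field_simp
    linear_combination this
  have h7 : T = W + (g * star θ) • vecMulVec k k := by
    rw [hTW]
    congr 1
    rw [h6, star_smul, star_star, Matrix.vecMulVec_smul, smul_smul]
  have h8 : Wᵀ = W := by
    have h9 : W = T - (g * star θ) • vecMulVec k k := by rw [h7]; abel
    rw [h9, Matrix.transpose_sub, Matrix.transpose_smul, Matrix.transpose_vecMulVec, hTs]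
  obtain ⟨c, H, -, hH1, hH2, hH3, hH4⟩ := exists_cayley hW1 hW2
  refine ⟨c, g * star θ, H, hH1, hH4 h8, hH2, ?_⟩
  rw [← hH3]
  exact h7

end Pool.Agent.TH269.TTO
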