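import Mathlib
import Pool.Agent.TH269.TTOSym

set_option autoImplicit false

open Matrix Filter Topology
open scoped Matrix

namespace Pool.Agent.TH269.TTO

section smooth

variable {E : Type*} [NormedAddCommGroup E] [NormedSpace ℝ E]
variable {I : Type*} [Fintype I] [DecidableEq I]

theorem contDiffAt_det {A : E → Matrix I I ℂ} {x : E}
    (h : ∀ i j, ContDiffAt ℝ 1 (fun y => A y i j) x) : ContDiffAt ℝ 1 (fun y => (A y).det) x := by
  simp only [Matrix.det_apply]
  apply ContDiffAt.sum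
  intro σ _
  apply ContDiffAt.const_smul
  apply contDiffAt_prod
  intro i _
  exact h _ _

theorem contDiffAt_inv {A : E → Matrix I I ℂ} {x : E}
    (h : ∀ i j, ContDiffAt ℝ 1 (fun y => A y i j) x) (hx : (A x).det ≠ 0) (i j : I) :
    ContDiffAt ℝ 1 (fun y => (A y)⁻¹ i j) x := by
  have h1 : ∀ y, (A y)⁻¹ i j = ((A y).det)⁻¹ * (A y).adjugate i j := by
    intro y
    rw [Matrix.inv_def, Matrix.smul_apply, smul_eq_mul, Ring.inverse_eq_inv']
  simp only [h1]
  apply ContDiffAt.mul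
  · exact (contDiffAt_det h).inv hx
  · simp only [Matrix.adjugate_apply]
    apply contDiffAt_det
    intro a b
    by_cases hab : a = j
    · subst hab
      simp only [Matrix.updateRow_self]
      exact contDiffAt_const
    · simp only [Matrix.updateRow_ne hab]
      exact h a b

end smooth

variable {n : ℕ}

/-- Symmetric matrix from a function on unordered pairs. -/
def sym (g : Sym2 (Fin n) → ℂ) : Matrix (Fin n) (Fin n) ℂ := fun i j => g s(i, j)

theorem sym_transpose (g : Sym2 (Fin n) → ℂ) : (sym g)ᵀ = sym g := by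
  ext i j
  simp [sym, Sym2.eq_swap]

/-- A chosen representative. -/
noncomputable def rep (z : Sym2 (Fin n)) : Fin n × Fin n := Quot.out z

theorem mk_rep (z : Sym2 (Fin n)) : s((rep z).1, (rep z).2) = z := Quot.out_eq z

theorem sym_rep (M : Matrix (Fin n) (Fin n) ℂ) (h : Mᵀ = M) (i j : Fin n) :
    M (rep s(i, j)).1 (rep s(i, j)).2 = M i j := by
  have h1 := mk_rep s(i, j)
  rw [Sym2.eq_iff] at h1
  rcases h1 with ⟨h1, h2⟩ | ⟨h1, h2⟩
  · rw [h1, h2]
  · rw [h1, h2]
    exact congrFun (congrFun h i) j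

/-- The parameter space. -/
abbrev Par (n : ℕ) : Type :=
  (Sym2 (Fin n) → ℝ) × ℂ × ℂ × (Fin n → ℂ) × (Fin n → ℂ) × (Fin n → ℂ)

def Hm (x : Par n) : Matrix (Fin n) (Fin n) ℂ := fun i j => (x.1 s(i, j) : ℂ)

noncomputable def Cm (x : Par n) : Matrix (Fin n) (Fin n) ℂ := 1 - Complex.I • Hm x

noncomputable def Tm (x : Par n) : Matrix (Fin n) (Fin n) ℂ :=
  x.2.1 • ((2 : ℂ) • (Cm x)⁻¹ - 1) + x.2.2.1 • vecMulVec x.2.2.2.1 x.2.2.2.1

/-- The matrix of `X ↦ X - T X T*`. -/
noncomputable def stein (T : Matrix (Fin n) (Fin n) ℂ) : Matrix (Fin n × Fin n) (Fin n × Fin n) ℂ :=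
  fun p q => (1 : Matrix (Fin n × Fin n) (Fin n × Fin n) ℂ) p q - T p.1 q.1 * star (T p.2 q.2)

noncomputable def rhs (x : Par n) : Fin n × Fin n → ℂ := fun p =>
  x.2.2.2.2.1 p.1 * star (x.2.2.2.1 p.2) + x.2.2.2.1 p.1 * star (x.2.2.2.2.2 p.2)

noncomputable def F (x : Par n) : Sym2 (Fin n) → ℂ := fun z =>
  ∑ q, (stein (Tm x))⁻¹ (rep z) q * rhs x q

def Good (n : ℕ) : Set (Par n) := {x | (Cm x).det ≠ 0 ∧ (stein (Tm x)).det ≠ 0}

theorem contDiff_star : ContDiff ℝ 1 (fun z : ℂ => star z) := Complex.conjCLE.contDiff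

theorem contDiffAt_F {x : Par n} (hx : x ∈ Good n) : ContDiffAt ℝ 1 F x := by
  rw [contDiffAt_pi]
  intro z
  unfold F
  apply ContDiffAt.sum
  intro q _
  have hC : ∀ i j, ContDiffAt ℝ 1 (fun y : Par n => Cm y i j) x := by
    intro i j
    simp only [Cm, Matrix.sub_apply, Matrix.smul_apply, Hm, smul_eq_mul]
    apply ContDiffAt.sub contDiffAt_const
    apply ContDiffAt.mul contDiffAt_const
    have h1 : ContDiff ℝ 1 (fun r : ℝ => (r : ℂ)) := Complex.ofRealCLM.contDiff
    have h2 : ContDiff ℝ 1 (fun y : Par n => y.1 s(i, j)) := by fun_prop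
    exact (h1.comp h2).contDiffAt
  have hT : ∀ i j, ContDiffAt ℝ 1 (fun y : Par n => Tm y i j) x := by
    intro i j
    simp only [Tm, Matrix.add_apply, Matrix.sub_apply, Matrix.smul_apply, smul_eq_mul,
      Matrix.vecMulVec_apply]
    have h3 := contDiffAt_inv hC hx.1 i j
    have h4 : ContDiff ℝ 1 (fun y : Par n => y.2.1) := by fun_prop
    have h5 : ContDiff ℝ 1 (fun y : Par n => y.2.2.1) := by fun_prop
    have h6 : ContDiff ℝ 1 (fun y : Par n => y.2.2.2.1 i) := by fun_prop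
    have h7 : ContDiff ℝ 1 (fun y : Par n => y.2.2.2.1 j) := by fun_prop
    exact (h4.contDiffAt.mul ((contDiffAt_const.mul h3).sub contDiffAt_const)).add
      (h5.contDiffAt.mul (h6.contDiffAt.mul h7.contDiffAt))
  have hS : ∀ p q, ContDiffAt ℝ 1 (fun y : Par n => stein (Tm y) p q) x := by
    intro p q
    simp only [stein]
    exact contDiffAt_const.sub ((hT _ _).mul (contDiff_star.contDiffAt.comp x (hT _ _)))
  have hb : ContDiffAt ℝ 1 (fun y : Par n => rhs y q) x := by
    have h4 : ContDiff ℝ 1 (fun y : Par n => y.2.2.2.2.1 q.1) := by fun_prop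
    have h5 : ContDiff ℝ 1 (fun y : Par n => y.2.2.2.1 q.2) := by fun_prop
    have h6 : ContDiff ℝ 1 (fun y : Par n => y.2.2.2.1 q.1) := by fun_prop
    have h7 : ContDiff ℝ 1 (fun y : Par n => y.2.2.2.2.2 q.2) := by fun_prop
    exact ((h4.mul (contDiff_star.comp h5)).add (h6.mul (contDiff_star.comp h7))).contDiffAt
  exact (contDiffAt_inv hS hx.2 _ _).mul hb

theorem stein_mulVec (T X : Matrix (Fin n) (Fin n) ℂ) (p : Fin n × Fin n) :
    (stein T *ᵥ fun q => X q.1 q.2) p = (X - T * X * Tᴴ) p.1 p.2 := by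
  have h1 : (stein T *ᵥ fun q => X q.1 q.2) p =
      ((1 : Matrix (Fin n × Fin n) (Fin n × Fin n) ℂ) *ᵥ fun q => X q.1 q.2) p -
        ∑ q : Fin n × Fin n, T p.1 q.1 * star (T p.2 q.2) * X q.1 q.2 := by
    simp only [Matrix.mulVec, dotProduct, stein, sub_mul, Finset.sum_sub_distrib]
  rw [h1, Matrix.one_mulVec, Matrix.sub_apply]
  congr 1
  rw [Matrix.mul_apply, Fintype.sum_prod_type_right]
  apply Finset.sum_congr rfl
  intro j _
  rw [Matrix.mul_apply, Finset.sum_mul, Matrix.conjTranspose_apply]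
  apply Finset.sum_congr rfl
  intro i _
  ring

theorem stein_det [Nonempty (Fin n)] {T : Matrix (Fin n) (Fin n) ℂ}
    (h : ∀ μ : ℂ, ∀ x : Fin n → ℂ, x ≠ 0 → T *ᵥ x = μ • x → ‖μ‖ < 1) : (stein T).det ≠ 0 := by
  intro h0
  obtain ⟨X, hX, hX0⟩ := Matrix.exists_mulVec_eq_zero_iff.2 h0
  apply hX
  set Y : Matrix (Fin n) (Fin n) ℂ := fun i j => X (i, j) with hY
  have h1 : Y = 0 := by
    apply stein_unique h
    ext i j
    have h2 := stein_mulVec T Y (i, j)
    have h3 : (fun q : Fin n × Fin n => Y q.1 q.2) = X := rfl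
    rw [h3, hX0] at h2
    simp only [Pi.zero_apply, Matrix.sub_apply] at h2
    exact (sub_eq_zero.1 h2.symm)
  ext ⟨i, j⟩
  exact congrFun (congrFun h1 i) j

theorem mem_image [Nonempty (Fin n)] {g : Sym2 (Fin n) → ℂ} {T : Matrix (Fin n) (Fin n) ℂ}
    {k u v : Fin n → ℂ} (hT : Model T k)
    (hM : sym g - T * sym g * Tᴴ = vecMulVec u (star k) + vecMulVec k (star v))
    (hno : NoOrth (sym g)) : g ∈ F '' Good n := by
  have hTs := hT.symm hM (sym_transpose g) hno
  obtain ⟨c, b, H, hH1, hH2, hdet, hTH⟩ := hT.exists_param hTs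
  have hreal : ∀ i j, ((H i j).re : ℂ) = H i j := by
    intro i j
    rw [← Complex.conj_eq_iff_re]
    have h1 := congrFun (congrFun hH1 j) i
    have h2 := congrFun (congrFun hH2 j) i
    rw [Matrix.conjTranspose_apply] at h1
    rw [Matrix.transpose_apply] at h2
    have h3 : star (H i j) = H i j := by rw [h1, h2]
    exact h3
  set x : Par n := (fun z => (H (rep z).1 (rep z).2).re, c, b, k, u, v) with hx
  have hHm : Hm x = H := by
    ext i j
    simp only [Hm, hx]
    rw [hreal, sym_rep H hH2]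
  have hTm : Tm x = T := by
    rw [hTH]
    simp only [Tm, Cm, hHm]
    rfl
  refine ⟨x, ⟨?_, ?_⟩, ?_⟩
  · simp only [Cm, hHm]
    exact hdet
  · rw [hTm]
    exact stein_det hT.eig
  · ext z
    have h1 : stein T *ᵥ (fun q => sym g q.1 q.2) = rhs x := by
      ext p
      rw [stein_mulVec, hM]
      simp [rhs, hx, Matrix.vecMulVec_apply]
    have h2 : IsUnit (stein T).det := isUnit_iff_ne_zero.2 (stein_det hT.eig)
    have h3 : (stein T)⁻¹ *ᵥ rhs x = fun q => sym g q.1 q.2 := by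
      rw [← h1, Matrix.mulVec_mulVec, Matrix.nonsing_inv_mul _ h2, Matrix.one_mulVec]
    have h4 := congrFun h3 (rep z)
    simp only [F, hTm]
    have h5 : ∑ q, (stein T)⁻¹ (rep z) q * rhs x q = ((stein T)⁻¹ *ᵥ rhs x) (rep z) := rfl
    rw [h5, h4]
    simp only [sym, mk_rep]

theorem dimH_image_le : dimH (F '' Good n) ≤ Module.finrank ℝ (Par n) := by
  calc dimH (F '' Good n) ≤ dimH (Good n) := by
        apply dimH_image_le_of_locally_lipschitzOn
        intro x hx
        obtain ⟨K, t, ht, hL⟩ := (contDiffAt_F hx).exists_lipschitzOnWith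
        exact ⟨K, t, mem_nhdsWithin_of_mem_nhds ht, hL⟩
    _ ≤ dimH (Set.univ : Set (Par n)) := dimH_mono (Set.subset_univ _)
    _ = Module.finrank ℝ (Par n) := Real.dimH_univ_eq_finrank _

theorem dense_compl (hn : 12 ≤ n) : Dense (F '' Good n)ᶜ := by
  apply dense_compl_of_dimH_lt_finrank
  refine dimH_image_le.trans_lt ?_
  have h1 : Module.finrank ℝ (Par n) = Fintype.card (Sym2 (Fin n)) + (2 + (2 + (2 * n + (2 * n + 2 * n)))) := by
    simp only [Par, Module.finrank_prod, Module.finrank_fintype_fun_eq_card, Complex.finrank_real_complex,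
      Module.finrank_pi_fintype, Finset.sum_const, Finset.card_univ, Fintype.card_fin, smul_eq_mul]
    ring
  have h2 : Module.finrank ℝ (Sym2 (Fin n) → ℂ) = 2 * Fintype.card (Sym2 (Fin n)) := by
    simp only [Module.finrank_pi_fintype, Complex.finrank_real_complex, Finset.sum_const, Finset.card_univ, smul_eq_mul]
    ring
  rw [h1, h2]
  have h3 : Fintype.card (Sym2 (Fin n)) = (n + 1).choose 2 := by
    rw [Sym2.card]; simp
  have h4 : 6 * n + 4 < (n + 1).choose 2 := by
    rw [Nat.choose_two_right]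
    have h5 : 2 * (6 * n + 5) ≤ (n + 1) * (n + 1 - 1) := by
      have : n + 1 - 1 = n := by omega
      rw [this]
      nlinarith
    omega
  rw [h3]
  norm_cast
  omega

end Pool.Agent.TH269.TTO
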