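import Mathlib
import Pool.Agent.TH269.TTODim

set_option autoImplicit false

open Matrix Filter Topology
open scoped Matrix

namespace Pool.Agent.TH269.TTO

variable {n : ℕ}

/-- The nilpotent Jordan block. -/
def J (n : ℕ) : Matrix (Fin n) (Fin n) ℂ := fun i j => if (i : ℕ) + 1 = j then 1 else 0

/-- The exchange matrix. -/
def B (n : ℕ) : Matrix (Fin n) (Fin n) ℂ := fun i j => if j = Fin.rev i then 1 else 0

theorem B_mulVec (x : Fin n → ℂ) (i : Fin n) : (B n *ᵥ x) i = x (Fin.rev i) := by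
  simp [Matrix.mulVec, dotProduct, B]

theorem B_mul_apply (A : Matrix (Fin n) (Fin n) ℂ) (i j : Fin n) : (B n * A) i j = A (Fin.rev i) j := by
  simp [Matrix.mul_apply, B]

theorem mul_B_apply (A : Matrix (Fin n) (Fin n) ℂ) (i j : Fin n) : (A * B n) i j = A i (Fin.rev j) := by
  rw [Matrix.mul_apply]
  have : ∀ k : Fin n, A i k * B n k j = if k = Fin.rev j then A i k else 0 := by
    intro k
    simp only [B]
    by_cases h : k = Fin.rev j
    · subst h; simp
    · have h' : ¬ j = Fin.rev k := by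
        intro h2
        apply h
        rw [h2, Fin.rev_rev]
      simp [h, h']
  simp [this]

theorem B_mul_B : B n * B n = 1 := by
  ext i j
  rw [mul_B_apply, Matrix.one_apply]
  simp only [B]
  congr 1
  apply propext
  constructor
  · intro h
    exact (Fin.rev_injective h).symm
  · intro h
    rw [h]

theorem B_J_B : B n * J n * B n = (J n)ᵀ := by
  ext i j
  rw [mul_B_apply, B_mul_apply, Matrix.transpose_apply]
  simp only [J, Fin.val_rev]
  have h1 := i.2
  have h2 := j.2
  congr 1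
  apply propext
  constructor <;> intro h <;> omega

theorem B_transpose : (B n)ᵀ = B n := by
  ext i j
  simp only [Matrix.transpose_apply, B]
  congr 1
  apply propext
  constructor
  · intro h; rw [h, Fin.rev_rev]
  · intro h; rw [h, Fin.rev_rev]

/-- The Jordan block in symmetric form. -/
noncomputable def N (n : ℕ) : Matrix (Fin n) (Fin n) ℂ :=
  (2⁻¹ : ℂ) • ((1 + Complex.I • B n) * J n * (1 - Complex.I • B n))

theorem e1 : (1 - Complex.I • B n) * B n = -Complex.I • (1 + Complex.I • B n) := by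
  rw [Matrix.sub_mul, Matrix.smul_mul, B_mul_B, smul_add, smul_smul, Matrix.one_mul]
  have : -Complex.I * Complex.I = 1 := by rw [neg_mul, Complex.I_mul_I, neg_neg]
  rw [this, one_smul, neg_smul]
  abel

theorem e2 : B n * (1 + Complex.I • B n) = Complex.I • (1 - Complex.I • B n) := by
  rw [Matrix.mul_add, Matrix.mul_smul, B_mul_B, smul_sub, smul_smul, Matrix.mul_one,
    Complex.I_mul_I, neg_one_smul]
  abel

theorem e3 : (1 - Complex.I • B n) * (1 + Complex.I • B n) = (2 : ℂ) • (1 : Matrix (Fin n) (Fin n) ℂ) := by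
  rw [Matrix.mul_add, Matrix.mul_smul, e1, smul_smul, Matrix.mul_one]
  have : Complex.I * -Complex.I = 1 := by rw [mul_neg, Complex.I_mul_I, neg_neg]
  rw [this, one_smul, two_smul]
  abel

theorem N_transpose : (N n)ᵀ = N n := by
  rw [N, Matrix.transpose_smul, Matrix.transpose_mul, Matrix.transpose_mul, Matrix.transpose_sub,
    Matrix.transpose_add, Matrix.transpose_smul, B_transpose, Matrix.transpose_one, ← B_J_B]
  congr 1
  calc (1 - Complex.I • B n) * (B n * J n * B n * (1 + Complex.I • B n))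
      = ((1 - Complex.I • B n) * B n) * J n * (B n * (1 + Complex.I • B n)) := by
        simp only [Matrix.mul_assoc]
    _ = _ := by
        rw [e1, e2, Matrix.smul_mul, Matrix.smul_mul, Matrix.mul_smul, smul_smul]
        have : -Complex.I * Complex.I = 1 := by rw [neg_mul, Complex.I_mul_I, neg_neg]
        rw [this, one_smul]

theorem J_mulVec (y : Fin n → ℂ) (i : Fin n) (h : (i : ℕ) + 1 < n) :
    (J n *ᵥ y) i = y ⟨i + 1, h⟩ := by
  rw [Matrix.mulVec, dotProduct, Finset.sum_eq_single ⟨i + 1, h⟩]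
  · simp [J]
  · intro b _ hb
    have : ¬ (i : ℕ) + 1 = b := by
      intro h2
      exact hb (Fin.ext h2.symm)
    simp [J, this]
  · intro h2
    exact absurd (Finset.mem_univ _) h2

theorem J_mulVec_last (y : Fin n → ℂ) (i : Fin n) (h : ¬ (i : ℕ) + 1 < n) :
    (J n *ᵥ y) i = 0 := by
  rw [Matrix.mulVec, dotProduct]
  apply Finset.sum_eq_zero
  intro b _
  have : ¬ (i : ℕ) + 1 = b := by
    intro h2
    have := b.2
    omega
  simp [J, this]

theorem eig_J {y : Fin (n + 1) → ℂ} {a : ℂ} (hy : y ≠ 0) (h : J (n + 1) *ᵥ y = a • y) :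
    y = y 0 • (Pi.single 0 1 : Fin (n + 1) → ℂ) := by
  have ha : a = 0 := by
    by_contra ha
    apply hy
    have h1 : ∀ m : ℕ, ∀ i : Fin (n + 1), n - i = m → y i = 0 := by
      intro m
      induction m with
      | zero =>
        intro i hi
        have h2 := congrFun h i
        rw [J_mulVec_last y i (by omega)] at h2
        have h3 : a * y i = 0 := h2.symm
        exact (mul_eq_zero.1 h3).resolve_left ha
      | succ m ih =>
        intro i hi
        have h2 := congrFun h i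
        rw [J_mulVec y i (by omega), ih ⟨i + 1, by omega⟩ (by simp; omega)] at h2
        have h3 : a * y i = 0 := h2.symm
        exact (mul_eq_zero.1 h3).resolve_left ha
    ext i
    exact h1 _ i rfl
  ext i
  rcases Nat.eq_zero_or_pos (i : ℕ) with hi | hi
  · have : i = 0 := Fin.ext hi
    subst this
    simp
  · have h2 := congrFun h ⟨i - 1, by omega⟩
    rw [J_mulVec y ⟨i - 1, by omega⟩ (by simp; omega), ha, zero_smul, Pi.zero_apply] at h2
    have h3 : (⟨(i : ℕ) - 1 + 1, by omega⟩ : Fin (n + 1)) = i := Fin.ext (by simp; omega)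
    have h4 : y i = 0 := by
      rw [← h2]
      congr 1
      exact h3.symm
    have h5 : i ≠ 0 := fun h6 => by rw [h6] at hi; simp at hi
    rw [h4]
    simp [h5]

theorem eig_N {x : Fin (n + 1) → ℂ} {a : ℂ} (hx : x ≠ 0) (h : N (n + 1) *ᵥ x = a • x) :
    ∃ t : ℂ, t ≠ 0 ∧ x = t • ((1 + Complex.I • B (n + 1)) *ᵥ (Pi.single 0 1 : Fin (n + 1) → ℂ)) := by
  set y := (1 - Complex.I • B (n + 1)) *ᵥ x with hy
  have e4 : (1 + Complex.I • B (n + 1)) * (1 - Complex.I • B (n + 1)) =
      (2 : ℂ) • (1 : Matrix (Fin (n + 1)) (Fin (n + 1)) ℂ) := by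
    have h5 : Commute (1 + Complex.I • B (n + 1)) (1 - Complex.I • B (n + 1)) := by
      apply Commute.sub_right
      · exact Commute.one_right _
      · apply Commute.add_left (Commute.one_left _) (Commute.refl _)
    rw [h5.eq, e3]
  have hxy : x = (2⁻¹ : ℂ) • ((1 + Complex.I • B (n + 1)) *ᵥ y) := by
    rw [hy, Matrix.mulVec_mulVec, e4, Matrix.smul_mulVec, Matrix.one_mulVec, smul_smul]
    norm_num
  have hy0 : y ≠ 0 := by
    intro h0
    rw [h0] at hxy
    apply hx
    rw [hxy]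
    simp
  have hJ : J (n + 1) *ᵥ y = a • y := by
    have h1 : (1 - Complex.I • B (n + 1)) * N (n + 1) = J (n + 1) * (1 - Complex.I • B (n + 1)) := by
      rw [N, Matrix.mul_smul]
      calc (2⁻¹ : ℂ) • ((1 - Complex.I • B (n + 1)) * ((1 + Complex.I • B (n + 1)) * J (n + 1) * (1 - Complex.I • B (n + 1))))
          = (2⁻¹ : ℂ) • (((1 - Complex.I • B (n + 1)) * (1 + Complex.I • B (n + 1))) * J (n + 1) * (1 - Complex.I • B (n + 1))) := by
            simp only [Matrix.mul_assoc]
        _ = _ := by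
            rw [e3, Matrix.smul_mul, Matrix.smul_mul, smul_smul, Matrix.one_mul]
            norm_num
    rw [hy, Matrix.mulVec_mulVec, ← h1, ← Matrix.mulVec_mulVec, h, Matrix.mulVec_smul]
  have h2 := eig_J hy0 hJ
  refine ⟨2⁻¹ * y 0, ?_, ?_⟩
  · apply mul_ne_zero (by norm_num)
    intro h3
    rw [h3, zero_smul] at h2
    exact hy0 h2
  · conv_lhs => rw [hxy, h2]
    rw [Matrix.mulVec_smul, smul_smul]

theorem noOrth_N : NoOrth (N (n + 1)) := by
  rintro ⟨x, y, a, b, hx, hy, hxa, hyb, hxy⟩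
  obtain ⟨t, ht, hxt⟩ := eig_N hx hxa
  obtain ⟨s, hs, hys⟩ := eig_N hy hyb
  set w := (1 + Complex.I • B (n + 1)) *ᵥ (Pi.single 0 1 : Fin (n + 1) → ℂ) with hw
  have hw0 : w ≠ 0 := by
    intro h
    rw [h] at hxt
    exact hx (by rw [hxt]; simp)
  rw [hxt, hys, star_smul, smul_dotProduct, dotProduct_smul, smul_eq_mul, smul_eq_mul] at hxy
  have h1 := dot_self_ne_zero hw0
  have h2 : star t ≠ 0 := by simpa using ht
  exact mul_ne_zero h2 (mul_ne_zero hs h1) hxy

/-- The condition of having orthogonal eigenvectors is closed. -/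
theorem isClosed_orth : IsClosed {g : Sym2 (Fin n) → ℂ | ¬ NoOrth (sym g)} := by
  let K := Metric.sphere (0 : Fin n → ℂ) 1
  have : CompactSpace K := isCompact_iff_compactSpace.1 (isCompact_sphere _ _)
  let C : Set ((Sym2 (Fin n) → ℂ) × (K × K)) := {p |
    (∀ i j, (sym p.1 *ᵥ (p.2.1 : Fin n → ℂ)) i * (p.2.1 : Fin n → ℂ) j =
      (sym p.1 *ᵥ (p.2.1 : Fin n → ℂ)) j * (p.2.1 : Fin n → ℂ) i) ∧
    (∀ i j, (sym p.1 *ᵥ (p.2.2 : Fin n → ℂ)) i * (p.2.2 : Fin n → ℂ) j =
      (sym p.1 *ᵥ (p.2.2 : Fin n → ℂ)) j * (p.2.2 : Fin n → ℂ) i) ∧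
    star (p.2.1 : Fin n → ℂ) ⬝ᵥ (p.2.2 : Fin n → ℂ) = 0}
  have hg : ∀ z, Continuous fun p : (Sym2 (Fin n) → ℂ) × (K × K) => p.1 z := fun z =>
    (continuous_apply z).comp continuous_fst
  have hx : ∀ i, Continuous fun p : (Sym2 (Fin n) → ℂ) × (K × K) => (p.2.1 : Fin n → ℂ) i := fun i =>
    (continuous_apply i).comp (continuous_subtype_val.comp (continuous_fst.comp continuous_snd))
  have hy : ∀ i, Continuous fun p : (Sym2 (Fin n) → ℂ) × (K × K) => (p.2.2 : Fin n → ℂ) i := fun i =>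
    (continuous_apply i).comp (continuous_subtype_val.comp (continuous_snd.comp continuous_snd))
  have hcont : ∀ i, Continuous fun p : (Sym2 (Fin n) → ℂ) × (K × K) =>
      (sym p.1 *ᵥ (p.2.1 : Fin n → ℂ)) i := by
    intro i
    simp only [Matrix.mulVec, dotProduct, sym]
    exact continuous_finsetSum _ fun j _ => (hg _).mul (hx j)
  have hcont' : ∀ i, Continuous fun p : (Sym2 (Fin n) → ℂ) × (K × K) =>
      (sym p.1 *ᵥ (p.2.2 : Fin n → ℂ)) i := by
    intro i
    simp only [Matrix.mulVec, dotProduct, sym]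
    exact continuous_finsetSum _ fun j _ => (hg _).mul (hy j)
  have hC : IsClosed C := by
    have hC1 : IsClosed {p : (Sym2 (Fin n) → ℂ) × (K × K) |
        ∀ i j, (sym p.1 *ᵥ (p.2.1 : Fin n → ℂ)) i * (p.2.1 : Fin n → ℂ) j =
      (sym p.1 *ᵥ (p.2.1 : Fin n → ℂ)) j * (p.2.1 : Fin n → ℂ) i} := by
      rw [Set.ofPred_forall]
      apply isClosed_iInter
      intro i
      rw [Set.ofPred_forall]
      apply isClosed_iInter
      intro j
      exact isClosed_eq ((hcont i).mul (hx j)) ((hcont j).mul (hx i))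
    have hC2 : IsClosed {p : (Sym2 (Fin n) → ℂ) × (K × K) |
        ∀ i j, (sym p.1 *ᵥ (p.2.2 : Fin n → ℂ)) i * (p.2.2 : Fin n → ℂ) j =
      (sym p.1 *ᵥ (p.2.2 : Fin n → ℂ)) j * (p.2.2 : Fin n → ℂ) i} := by
      rw [Set.ofPred_forall]
      apply isClosed_iInter
      intro i
      rw [Set.ofPred_forall]
      apply isClosed_iInter
      intro j
      exact isClosed_eq ((hcont' i).mul (hy j)) ((hcont' j).mul (hy i))
    have hC3 : IsClosed {p : (Sym2 (Fin n) → ℂ) × (K × K) |
        star (p.2.1 : Fin n → ℂ) ⬝ᵥ (p.2.2 : Fin n → ℂ) = 0} := by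
      apply isClosed_eq _ continuous_const
      simp only [dotProduct, Pi.star_apply]
      exact continuous_finsetSum _ fun j _ => (continuous_star.comp (hx j)).mul (hy j)
    exact hC1.inter (hC2.inter hC3)
  have himg : {g : Sym2 (Fin n) → ℂ | ¬ NoOrth (sym g)} = Prod.fst '' C := by
    ext g
    constructor
    · intro hg
      simp only [Set.mem_ofPred_eq, NoOrth, not_not] at hg
      obtain ⟨x, y, a, b, hx, hy, hxa, hyb, hxy⟩ := hg
      have hx' : ‖x‖ ≠ 0 := norm_ne_zero_iff.2 hx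
      have hy' : ‖y‖ ≠ 0 := norm_ne_zero_iff.2 hy
      refine ⟨(g, ⟨((‖x‖⁻¹ : ℝ) : ℂ) • x, by simp [K, norm_smul, hx']⟩,
        ⟨((‖y‖⁻¹ : ℝ) : ℂ) • y, by simp [K, norm_smul, hy']⟩), ⟨?_, ?_, ?_⟩, rfl⟩
      · intro i j
        simp only [Matrix.mulVec_smul, hxa, Pi.smul_apply, smul_eq_mul]
        ring
      · intro i j
        simp only [Matrix.mulVec_smul, hyb, Pi.smul_apply, smul_eq_mul]
        ring
      · simp only [star_smul, smul_dotProduct, dotProduct_smul, hxy, smul_zero]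
    · rintro ⟨⟨g', ⟨x, hx⟩, ⟨y, hy⟩⟩, ⟨h1, h2, h3⟩, rfl⟩
      simp only [Set.mem_ofPred_eq, NoOrth, not_not]
      have hx1 : ‖x‖ = 1 := by simpa [K] using hx
      have hy1 : ‖y‖ = 1 := by simpa [K] using hy
      have hx0 : x ≠ 0 := by intro h; rw [h, norm_zero] at hx1; norm_num at hx1
      have hy0 : y ≠ 0 := by intro h; rw [h, norm_zero] at hy1; norm_num at hy1
      obtain ⟨i, hi⟩ : ∃ i, x i ≠ 0 := by
        by_contra hcon
        push Not at hcon
        exact hx0 (funext hcon)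
      obtain ⟨j, hj⟩ : ∃ i, y i ≠ 0 := by
        by_contra hcon
        push Not at hcon
        exact hy0 (funext hcon)
      refine ⟨x, y, (sym g' *ᵥ x) i / x i, (sym g' *ᵥ y) j / y j, hx0, hy0, ?_, ?_, h3⟩
      · ext l
        rw [Pi.smul_apply, smul_eq_mul]
        have := h1 l i
        field_simp
        exact this
      · ext l
        rw [Pi.smul_apply, smul_eq_mul]
        have := h2 l j
        field_simp
        exact this
  rw [himg]
  exact isClosedMap_fst_of_compactSpace _ hC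

/-- For `n ≥ 12` there is a symmetric matrix without orthogonal eigenvectors that is not
unitarily equivalent to a truncated Toeplitz operator. -/
theorem exists_counterexample (n : ℕ) (hn : 12 ≤ n) : ∃ M : Matrix (Fin n) (Fin n) ℂ, Mᵀ = M ∧ NoOrth M ∧
    ¬ ∃ T : Matrix (Fin n) (Fin n) ℂ, ∃ k u v : Fin n → ℂ,
        1 - T * Tᴴ = Matrix.vecMulVec k (star k) ∧
        (∀ μ : ℂ, ∀ x : Fin n → ℂ, x ≠ 0 → T *ᵥ x = μ • x → ‖μ‖ < 1) ∧
        M - T * M * Tᴴ = Matrix.vecMulVec u (star k) + Matrix.vecMulVec k (star v) := by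
  obtain ⟨m, rfl⟩ : ∃ m, n = m + 1 := ⟨n - 1, by omega⟩
  have hopen : IsOpen {g : Sym2 (Fin (m + 1)) → ℂ | NoOrth (sym g)} := by
    have := (isClosed_orth (n := m + 1)).isOpen_compl
    convert this using 1
    ext g
    simp
  have hne : {g : Sym2 (Fin (m + 1)) → ℂ | NoOrth (sym g)}.Nonempty := by
    refine ⟨fun z => N (m + 1) (rep z).1 (rep z).2, ?_⟩
    have : sym (fun z => N (m + 1) (rep z).1 (rep z).2) = N (m + 1) := by
      ext i j
      simp only [sym]
      exact sym_rep _ N_transpose i j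
    rw [Set.mem_ofPred_eq, this]
    exact noOrth_N
  obtain ⟨g, hg1, hg2⟩ := (dense_compl hn).inter_open_nonempty _ hopen hne
  refine ⟨sym g, sym_transpose g, hg1, ?_⟩
  rintro ⟨T, k, u, v, h1, h2, h3⟩
  exact hg2 (mem_image ⟨h1, h2⟩ h3 hg1)

end Pool.Agent.TH269.TTO
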